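import Pool.Agent.P.MP_8a6196_an.ClD

/-- For a finite-dimensional `E` of dimension at least two, the norm of `FBL[E]` is octahedral
exactly when `E` is the `ℓ₁`-sum of a line `ℝ x₀` and a subspace `H`. -/
theorem Pool.Agent.Results.MP_8a6196_an.Classification.result (E : Type) [NormedAddCommGroup E]
    [NormedSpace ℝ E] [FiniteDimensional ℝ E] (hE : 2 ≤ Module.finrank ℝ E) :
    Pool.Agent.P.MP_8a6196_an.FBLOctahedral E ↔
      ∃ (x₀ : E) (H : Submodule ℝ E), Submodule.span ℝ {x₀} ⊔ H = ⊤ ∧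
        ∀ (t : ℝ), ∀ y ∈ H, ‖t • x₀ + y‖ = |t| + ‖y‖ :=
  Pool.Agent.P.MP_8a6196_an.classification hE
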